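import Pool.Agent.W198.TC.Basic

set_option autoImplicit false

open Complex Filter Topology Set MeasureTheory

namespace TC.W63

/-- index of the terms of `DD` -/
abbrev Ix := Option (ℕ ⊕ ℕ)

/-- the index set -/
def SS (N₁ N₂ : ℕ) : Finset Ix :=
  Finset.insertNone ((Finset.Icc 2 N₁).disjSum (Finset.Icc 2 N₂))

/-- the coefficients -/
def dd (α β : ℕ → ℝ) (c : ℝ) : Ix → ℝ
  | none => c
  | some (Sum.inl a) => α a
  | some (Sum.inr b) => β b

/-- the numerators -/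
def nm : Ix → ℕ
  | none => 1
  | some (Sum.inl a) => a
  | some (Sum.inr _) => 1

/-- the denominators -/
def dn : Ix → ℕ
  | none => 1
  | some (Sum.inl _) => 1
  | some (Sum.inr b) => b

/-- the frequencies -/
noncomputable def fr (x : Ix) : ℝ := Real.log (nm x) - Real.log (dn x)

lemma sum_SS {M : Type*} [AddCommMonoid M] (N₁ N₂ : ℕ) (F : Ix → M) :
    ∑ x ∈ SS N₁ N₂, F x = F none + (∑ a ∈ Finset.Icc 2 N₁, F (some (Sum.inl a)) +
      ∑ b ∈ Finset.Icc 2 N₂, F (some (Sum.inr b))) := by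
  unfold SS
  rw [Finset.sum_insertNone, Finset.sum_disjSum]

lemma conj_phase (r : ℝ) : (starRingEnd ℂ) (cexp ((r : ℂ) * I)) = cexp (((-r : ℝ) : ℂ) * I) := by
  rw [← Complex.exp_conj, map_mul, Complex.conj_ofReal, Complex.conj_I]
  push_cast
  ring_nf

lemma DD_eq (α β : ℕ → ℝ) (N₁ N₂ : ℕ) (c t : ℝ) : DD α β N₁ N₂ c t =
    ∑ x ∈ SS N₁ N₂, (dd α β c x : ℂ) * cexp (((-(t * fr x) : ℝ) : ℂ) * I) := by
  rw [sum_SS]
  unfold DD DP
  have e1 : ((dd α β c none : ℝ) : ℂ) * cexp (((-(t * fr none) : ℝ) : ℂ) * I) = (c : ℂ) := by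
    simp [dd, fr, nm, dn]
  have e2 : ∀ a : ℕ, ((dd α β c (some (Sum.inl a)) : ℝ) : ℂ) *
      cexp (((-(t * fr (some (Sum.inl a))) : ℝ) : ℂ) * I) =
      (α a : ℂ) * cexp (((-(t * Real.log a) : ℝ) : ℂ) * I) := by
    intro a
    simp [dd, fr, nm, dn]
  have e3 : ∀ b : ℕ, ((dd α β c (some (Sum.inr b)) : ℝ) : ℂ) *
      cexp (((-(t * fr (some (Sum.inr b))) : ℝ) : ℂ) * I) =
      (starRingEnd ℂ) ((β b : ℂ) * cexp (((-(t * Real.log b) : ℝ) : ℂ) * I)) := by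
    intro b
    rw [map_mul, Complex.conj_ofReal, conj_phase]
    simp [dd, fr, nm, dn]
  rw [e1]
  simp only [e2, e3]
  rw [map_sum]
  ring

lemma sz_eq (α β : ℕ → ℝ) (N₁ N₂ : ℕ) (c : ℝ) :
    sz α β N₁ N₂ c = ∑ x ∈ SS N₁ N₂, |dd α β c x| := by
  rw [sum_SS]
  unfold sz dd
  ring

lemma phase3 (t a b k : ℝ) : cexp (((-(t * a) : ℝ) : ℂ) * I) *
    (starRingEnd ℂ) (cexp (((-(t * b) : ℝ) : ℂ) * I)) * cexp (((-(t * k) : ℝ) : ℂ) * I) =
    cexp (((t * (-(a - b + k)) : ℝ) : ℂ) * I) := by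
  rw [conj_phase, ← Complex.exp_add, ← Complex.exp_add]
  congr 1
  push_cast
  ring

lemma prod_eq (α β q : ℕ → ℝ) (N₁ N₂ N₃ : ℕ) (c t : ℝ) :
    ‖DD α β N₁ N₂ c t‖ ^ 2 * (DP q N₃ t).re =
    (∑ x ∈ SS N₁ N₂, ∑ y ∈ SS N₁ N₂, ∑ n ∈ Finset.Icc 2 N₃,
      ((dd α β c x * dd α β c y * q n : ℝ) : ℂ) *
        cexp (((t * (-(fr x - fr y + Real.log n)) : ℝ) : ℂ) * I)).re := by
  have h1 : (∑ x ∈ SS N₁ N₂, ∑ y ∈ SS N₁ N₂, ∑ n ∈ Finset.Icc 2 N₃,
      ((dd α β c x * dd α β c y * q n : ℝ) : ℂ) *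
        cexp (((t * (-(fr x - fr y + Real.log n)) : ℝ) : ℂ) * I)) =
      DD α β N₁ N₂ c t * (starRingEnd ℂ) (DD α β N₁ N₂ c t) * DP q N₃ t := by
    rw [DD_eq, map_sum, Finset.sum_mul_sum, Finset.sum_mul]
    refine Finset.sum_congr rfl fun x _ => ?_
    rw [Finset.sum_mul]
    refine Finset.sum_congr rfl fun y _ => ?_
    unfold DP
    rw [Finset.mul_sum]
    refine Finset.sum_congr rfl fun n _ => ?_
    rw [← phase3, map_mul, Complex.conj_ofReal]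
    push_cast
    ring
  rw [h1, Complex.mul_conj, Complex.normSq_eq_norm_sq, Complex.re_ofReal_mul]

/-- the oscillating factor -/
noncomputable def EE (τ H μ : ℝ) : ℝ := Real.exp (-(H ^ 2 * μ ^ 2) / 2) * Real.cos (τ * μ)

lemma int_eq (α β q : ℕ → ℝ) (N₁ N₂ N₃ : ℕ) (c τ H : ℝ) (hH : 0 < H) :
    ∫ t : ℝ, om τ H t * ‖DD α β N₁ N₂ c t‖ ^ 2 * (DP q N₃ t).re =
    Real.sqrt (2 * Real.pi) * H * ∑ x ∈ SS N₁ N₂, ∑ y ∈ SS N₁ N₂, ∑ n ∈ Finset.Icc 2 N₃,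
      dd α β c x * dd α β c y * q n * EE τ H (fr x - fr y + Real.log n) := by
  set F : Ix → Ix → ℕ → ℝ → ℂ := fun x y n t =>
    ((dd α β c x * dd α β c y * q n : ℝ) : ℂ) * ((om τ H t : ℂ) *
      cexp (((t * (-(fr x - fr y + Real.log n)) : ℝ) : ℂ) * I)) with hF
  have hFi : ∀ x y n, Integrable (F x y n) := fun x y n => ((gau τ H _ hH).1).const_mul _
  have hFv : ∀ x y n, ∫ t, F x y n t = ((dd α β c x * dd α β c y * q n : ℝ) : ℂ) *
      (((Real.sqrt (2 * Real.pi) * H *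
        Real.exp (-(H ^ 2 * (-(fr x - fr y + Real.log n)) ^ 2) / 2) : ℝ) : ℂ) *
      cexp (((τ * (-(fr x - fr y + Real.log n)) : ℝ) : ℂ) * I)) := by
    intro x y n
    rw [hF]
    show ∫ t, ((dd α β c x * dd α β c y * q n : ℝ) : ℂ) * ((om τ H t : ℂ) *
      cexp (((t * (-(fr x - fr y + Real.log n)) : ℝ) : ℂ) * I)) = _
    rw [integral_const_mul, (gau τ H _ hH).2]
  have h1 : ∀ t : ℝ, om τ H t * ‖DD α β N₁ N₂ c t‖ ^ 2 * (DP q N₃ t).re =
      RCLike.re (∑ x ∈ SS N₁ N₂, ∑ y ∈ SS N₁ N₂, ∑ n ∈ Finset.Icc 2 N₃, F x y n t) := by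
    intro t
    have h2 : (∑ x ∈ SS N₁ N₂, ∑ y ∈ SS N₁ N₂, ∑ n ∈ Finset.Icc 2 N₃, F x y n t) =
        (om τ H t : ℂ) * ∑ x ∈ SS N₁ N₂, ∑ y ∈ SS N₁ N₂, ∑ n ∈ Finset.Icc 2 N₃,
          ((dd α β c x * dd α β c y * q n : ℝ) : ℂ) *
          cexp (((t * (-(fr x - fr y + Real.log n)) : ℝ) : ℂ) * I) := by
      rw [Finset.mul_sum]
      refine Finset.sum_congr rfl fun x _ => ?_
      rw [Finset.mul_sum]
      refine Finset.sum_congr rfl fun y _ => ?_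
      rw [Finset.mul_sum]
      refine Finset.sum_congr rfl fun n _ => ?_
      rw [hF]
      ring
    rw [h2, mul_assoc, prod_eq]
    show _ = ((om τ H t : ℂ) * _).re
    rw [Complex.re_ofReal_mul]
  simp only [h1]
  have hi1 : ∀ x y, Integrable fun t => ∑ n ∈ Finset.Icc 2 N₃, F x y n t := fun x y =>
    integrable_finsetSum _ fun n _ => hFi x y n
  have hi2 : ∀ x, Integrable fun t => ∑ y ∈ SS N₁ N₂, ∑ n ∈ Finset.Icc 2 N₃, F x y n t :=
    fun x => integrable_finsetSum _ fun y _ => hi1 x y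
  have hi3 : Integrable fun t => ∑ x ∈ SS N₁ N₂, ∑ y ∈ SS N₁ N₂, ∑ n ∈ Finset.Icc 2 N₃,
      F x y n t := integrable_finsetSum _ fun x _ => hi2 x
  rw [integral_re hi3, integral_finsetSum _ fun x _ => hi2 x, map_sum, Finset.mul_sum]
  refine Finset.sum_congr rfl fun x _ => ?_
  rw [integral_finsetSum _ fun y _ => hi1 x y, map_sum, Finset.mul_sum]
  refine Finset.sum_congr rfl fun y _ => ?_
  rw [integral_finsetSum _ fun n _ => hFi x y n, map_sum, Finset.mul_sum]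
  refine Finset.sum_congr rfl fun n _ => ?_
  rw [hFv]
  show (((dd α β c x * dd α β c y * q n : ℝ) : ℂ) *
      (((Real.sqrt (2 * Real.pi) * H *
        Real.exp (-(H ^ 2 * (-(fr x - fr y + Real.log n)) ^ 2) / 2) : ℝ) : ℂ) *
      cexp (((τ * (-(fr x - fr y + Real.log n)) : ℝ) : ℂ) * I))).re = _
  rw [Complex.re_ofReal_mul, Complex.re_ofReal_mul, Complex.exp_ofReal_mul_I_re]
  unfold EE
  rw [neg_sq, mul_neg, Real.cos_neg]
  ring

lemma log_gap {P B : ℕ} (hP : 1 ≤ P) (hB : 1 ≤ B) (hne : P ≠ B) :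
    1 / (2 * (B : ℝ)) ≤ |Real.log P - Real.log B| := by
  have hP' : (0 : ℝ) < P := by exact_mod_cast hP
  have hB' : (0 : ℝ) < B := by exact_mod_cast hB
  have hB1 : (1 : ℝ) ≤ B := by exact_mod_cast hB
  rcases lt_or_gt_of_ne hne with h | h
  · have h1 : (P : ℝ) + 1 ≤ B := by exact_mod_cast h
    have h2 := Real.one_sub_inv_le_log_of_pos (x := (B : ℝ) / P) (by positivity)
    rw [Real.log_div hB'.ne' hP'.ne', inv_div] at h2
    have h3 : 1 / (2 * (B : ℝ)) ≤ 1 - (P : ℝ) / B := by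
      have e : 1 - (P : ℝ) / B = (B - P) / B := by field_simp
      rw [e, div_le_div_iff₀ (by positivity) hB']
      nlinarith
    have h4 := neg_abs_le (Real.log P - Real.log B)
    linarith
  · have h1 : (B : ℝ) + 1 ≤ P := by exact_mod_cast h
    have h2 := Real.one_sub_inv_le_log_of_pos (x := (P : ℝ) / B) (by positivity)
    rw [Real.log_div hP'.ne' hB'.ne', inv_div] at h2
    have h3 : 1 / (2 * (B : ℝ)) ≤ 1 - (B : ℝ) / P := by
      have e : 1 - (B : ℝ) / P = (P - B) / P := by field_simp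
      rw [e, div_le_div_iff₀ (by positivity) hP']
      nlinarith
    have h4 := le_abs_self (Real.log P - Real.log B)
    linarith

lemma nm_bd {N₁ N₂ : ℕ} (h1 : 1 ≤ N₁) {x : Ix} (hx : x ∈ SS N₁ N₂) : 1 ≤ nm x ∧ nm x ≤ N₁ := by
  rcases x with _ | a | b
  · exact ⟨le_rfl, h1⟩
  · have : a ∈ Finset.Icc 2 N₁ := by simpa [SS] using hx
    rw [Finset.mem_Icc] at this
    exact ⟨by show 1 ≤ a; omega, this.2⟩
  · exact ⟨le_rfl, h1⟩

lemma dn_bd {N₁ N₂ : ℕ} (h2 : 1 ≤ N₂) {x : Ix} (hx : x ∈ SS N₁ N₂) : 1 ≤ dn x ∧ dn x ≤ N₂ := by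
  rcases x with _ | a | b
  · exact ⟨le_rfl, h2⟩
  · exact ⟨le_rfl, h2⟩
  · have : b ∈ Finset.Icc 2 N₂ := by simpa [SS] using hx
    rw [Finset.mem_Icc] at this
    exact ⟨by show 1 ≤ b; omega, this.2⟩

lemma EE_close {N₁ N₂ : ℕ} (h1 : 1 ≤ N₁) (h2 : 1 ≤ N₂) {x y : Ix} (hx : x ∈ SS N₁ N₂)
    (hy : y ∈ SS N₁ N₂) {n : ℕ} (hn : 1 ≤ n) (τ H : ℝ) :
    |EE τ H (fr x - fr y + Real.log n) - (if n * nm x * dn y = dn x * nm y then 1 else 0)| ≤
      Real.exp (-(H ^ 2) / (8 * ((N₁ : ℝ) * N₂) ^ 2)) := by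
  obtain ⟨a1, a2⟩ := nm_bd h1 hx
  obtain ⟨b1, b2⟩ := nm_bd h1 hy
  obtain ⟨c1, c2⟩ := dn_bd h2 hx
  obtain ⟨d1, d2⟩ := dn_bd h2 hy
  have a1' : (0 : ℝ) < nm x := by exact_mod_cast a1
  have b1' : (0 : ℝ) < nm y := by exact_mod_cast b1
  have c1' : (0 : ℝ) < dn x := by exact_mod_cast c1
  have d1' : (0 : ℝ) < dn y := by exact_mod_cast d1
  have n1' : (0 : ℝ) < n := by exact_mod_cast hn
  have hμ : fr x - fr y + Real.log n = Real.log ((n * nm x * dn y : ℕ) : ℝ) -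
      Real.log ((dn x * nm y : ℕ) : ℝ) := by
    unfold fr
    push_cast
    rw [Real.log_mul (by positivity) (by positivity), Real.log_mul (by positivity) (by positivity),
      Real.log_mul (by positivity) (by positivity)]
    ring
  by_cases hr : n * nm x * dn y = dn x * nm y
  · rw [if_pos hr, hμ, hr, sub_self]
    simp only [EE]
    norm_num
    positivity
  · rw [if_neg hr, sub_zero, hμ]
    have hP : 1 ≤ n * nm x * dn y := Nat.one_le_iff_ne_zero.2 (by positivity)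
    have hB : 1 ≤ dn x * nm y := Nat.one_le_iff_ne_zero.2 (by positivity)
    have hg := log_gap hP hB hr
    set μ : ℝ := Real.log ((n * nm x * dn y : ℕ) : ℝ) - Real.log ((dn x * nm y : ℕ) : ℝ)
    have hBN : ((dn x * nm y : ℕ) : ℝ) ≤ (N₁ : ℝ) * N₂ := by
      have : dn x * nm y ≤ N₂ * N₁ := Nat.mul_le_mul c2 b2
      calc ((dn x * nm y : ℕ) : ℝ) ≤ ((N₂ * N₁ : ℕ) : ℝ) := by exact_mod_cast this
        _ = (N₁ : ℝ) * N₂ := by push_cast; ring
    have hB0 : (0 : ℝ) < ((dn x * nm y : ℕ) : ℝ) := by exact_mod_cast hB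
    have hN0 : (0 : ℝ) < (N₁ : ℝ) * N₂ := hB0.trans_le hBN
    have hg2 : 1 / (2 * ((N₁ : ℝ) * N₂)) ≤ |μ| := by
      refine le_trans ?_ hg
      exact one_div_le_one_div_of_le (by positivity) (by linarith)
    have hg3 : (1 / (2 * ((N₁ : ℝ) * N₂))) ^ 2 ≤ μ ^ 2 := by
      rw [← sq_abs μ]
      exact pow_le_pow_left₀ (by positivity) hg2 2
    unfold EE
    rw [abs_mul, abs_of_pos (Real.exp_pos _)]
    calc Real.exp (-(H ^ 2 * μ ^ 2) / 2) * |Real.cos (τ * μ)|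
        ≤ Real.exp (-(H ^ 2 * μ ^ 2) / 2) * 1 :=
          mul_le_mul_of_nonneg_left (Real.abs_cos_le_one _) (Real.exp_pos _).le
      _ = Real.exp (-(H ^ 2 * μ ^ 2) / 2) := mul_one _
      _ ≤ Real.exp (-(H ^ 2) / (8 * ((N₁ : ℝ) * N₂) ^ 2)) := by
          rw [Real.exp_le_exp]
          have h5 := mul_le_mul_of_nonneg_left hg3 (sq_nonneg H)
          have e5 : H ^ 2 * (1 / (2 * ((N₁ : ℝ) * N₂))) ^ 2 =
              2 * (H ^ 2 / (8 * ((N₁ : ℝ) * N₂) ^ 2)) := by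
            field_simp
            ring
          have e6 : -(H ^ 2) / (8 * ((N₁ : ℝ) * N₂) ^ 2) =
              -(H ^ 2 / (8 * ((N₁ : ℝ) * N₂) ^ 2)) := by ring
          rw [e5] at h5
          rw [e6]
          linarith

lemma res_bd {N : ℕ} {C U : ℝ}
    (hC : ∑ a ∈ Finset.Icc 2 N, ∑ b ∈ Finset.Icc 2 N, lam a * lam b * lam (a * b) ≤ C)
    (hU : 0 ≤ U) {s₁ s₂ s₃ : Finset ℕ} (h1 : s₁ ⊆ Finset.Icc 2 N) (h3 : s₃ ⊆ Finset.Icc 2 N)
    (u v w : ℕ → ℝ)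
    (h : ∀ a b, |u a * w b * v (a * b)| ≤ U * (lam a * lam b * lam (a * b))) :
    |∑ a ∈ s₁, ∑ b ∈ s₃, ∑ k ∈ s₂, if k = a * b then u a * w b * v k else 0| ≤ U * C := by
  have hl : ∀ a b, 0 ≤ U * (lam a * lam b * lam (a * b)) := fun a b =>
    mul_nonneg hU (mul_nonneg (mul_nonneg (lam_nonneg _) (lam_nonneg _)) (lam_nonneg _))
  calc |∑ a ∈ s₁, ∑ b ∈ s₃, ∑ k ∈ s₂, if k = a * b then u a * w b * v k else 0|
      ≤ ∑ a ∈ s₁, ∑ b ∈ s₃, U * (lam a * lam b * lam (a * b)) := by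
        refine (Finset.abs_sum_le_sum_abs _ _).trans (Finset.sum_le_sum fun a _ => ?_)
        refine (Finset.abs_sum_le_sum_abs _ _).trans (Finset.sum_le_sum fun b _ => ?_)
        rw [Finset.sum_ite_eq' s₂ (a * b) (fun k => u a * w b * v k)]
        split_ifs
        · exact h a b
        · rw [abs_zero]
          exact hl a b
    _ ≤ ∑ a ∈ Finset.Icc 2 N, ∑ b ∈ Finset.Icc 2 N, U * (lam a * lam b * lam (a * b)) := by
        refine (Finset.sum_le_sum fun a _ =>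
          Finset.sum_le_sum_of_subset_of_nonneg h3 fun b _ _ => hl a b).trans ?_
        exact Finset.sum_le_sum_of_subset_of_nonneg h1 fun a _ _ =>
          Finset.sum_nonneg fun b _ => hl a b
    _ = U * ∑ a ∈ Finset.Icc 2 N, ∑ b ∈ Finset.Icc 2 N, lam a * lam b * lam (a * b) := by
        rw [Finset.mul_sum]
        refine Finset.sum_congr rfl fun a _ => ?_
        rw [Finset.mul_sum]
    _ ≤ U * C := mul_le_mul_of_nonneg_left hC hU

/-- the inner resonant sum -/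
noncomputable def TT (α β q : ℕ → ℝ) (c : ℝ) (N₃ : ℕ) (x y : Ix) : ℝ :=
  ∑ n ∈ Finset.Icc 2 N₃, dd α β c x * dd α β c y * q n *
    (if n * nm x * dn y = dn x * nm y then 1 else 0)

lemma TT_none_none (α β q : ℕ → ℝ) (c : ℝ) (N₃ : ℕ) : TT α β q c N₃ none none = 0 := by
  unfold TT
  refine Finset.sum_eq_zero fun n hn => ?_
  rw [Finset.mem_Icc] at hn
  rw [if_neg, mul_zero]
  show ¬ n * 1 * 1 = 1 * 1
  omega

lemma TT_none_inl (α β q : ℕ → ℝ) (c : ℝ) {N₃ b : ℕ} (hb : b ∈ Finset.Icc 2 N₃) :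
    TT α β q c N₃ none (some (Sum.inl b)) = c * (α b * q b) := by
  unfold TT
  rw [Finset.sum_eq_single b]
  · rw [if_pos]
    · show c * α b * q b * 1 = _
      ring
    · show b * 1 * 1 = 1 * b
      ring
  · intro n _ hnb
    rw [if_neg, mul_zero]
    show ¬ n * 1 * 1 = 1 * b
    omega
  · intro h
    exact absurd hb h

lemma TT_none_inr (α β q : ℕ → ℝ) (c : ℝ) {N₃ b : ℕ} (hb : 2 ≤ b) :
    TT α β q c N₃ none (some (Sum.inr b)) = 0 := by
  unfold TT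
  refine Finset.sum_eq_zero fun n hn => ?_
  rw [Finset.mem_Icc] at hn
  rw [if_neg, mul_zero]
  show ¬ n * 1 * b = 1 * 1
  intro h
  nlinarith [hn.1]

lemma TT_inl_none (α β q : ℕ → ℝ) (c : ℝ) {N₃ a : ℕ} (ha : 2 ≤ a) :
    TT α β q c N₃ (some (Sum.inl a)) none = 0 := by
  unfold TT
  refine Finset.sum_eq_zero fun n hn => ?_
  rw [Finset.mem_Icc] at hn
  rw [if_neg, mul_zero]
  show ¬ n * a * 1 = 1 * 1
  intro h
  nlinarith [hn.1]

lemma TT_inr_none (α β q : ℕ → ℝ) (c : ℝ) {N₃ a : ℕ} (ha : a ∈ Finset.Icc 2 N₃) :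
    TT α β q c N₃ (some (Sum.inr a)) none = c * (β a * q a) := by
  unfold TT
  rw [Finset.sum_eq_single a]
  · rw [if_pos]
    · show β a * c * q a * 1 = _
      ring
    · show a * 1 * 1 = a * 1
      ring
  · intro n _ hnb
    rw [if_neg, mul_zero]
    show ¬ n * 1 * 1 = a * 1
    omega
  · intro h
    exact absurd ha h

lemma TT_inl_inl (α β q : ℕ → ℝ) (c : ℝ) (N₃ a b : ℕ) :
    TT α β q c N₃ (some (Sum.inl a)) (some (Sum.inl b)) =
      ∑ n ∈ Finset.Icc 2 N₃, if b = a * n then α a * q n * α b else 0 := by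
  unfold TT
  refine Finset.sum_congr rfl fun n _ => ?_
  have h : (n * nm (some (Sum.inl a)) * dn (some (Sum.inl b)) =
      dn (some (Sum.inl a)) * nm (some (Sum.inl b))) ↔ b = a * n := by
    show n * a * 1 = 1 * b ↔ _
    rw [mul_one, one_mul, mul_comm n a]
    exact eq_comm
  by_cases hb : b = a * n
  · rw [if_pos (h.2 hb), if_pos hb]
    show α a * α b * q n * 1 = _
    ring
  · rw [if_neg (fun h' => hb (h.1 h')), if_neg hb, mul_zero]

lemma TT_inl_inr (α β q : ℕ → ℝ) (c : ℝ) {N₃ a b : ℕ} (ha : 2 ≤ a) (hb : 2 ≤ b) :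
    TT α β q c N₃ (some (Sum.inl a)) (some (Sum.inr b)) = 0 := by
  unfold TT
  refine Finset.sum_eq_zero fun n hn => ?_
  rw [Finset.mem_Icc] at hn
  rw [if_neg, mul_zero]
  show ¬ n * a * b = 1 * 1
  intro h
  have h1 : 4 ≤ n * a := Nat.mul_le_mul hn.1 ha
  nlinarith [Nat.mul_le_mul h1 hb]

lemma TT_inr_inl (α β q : ℕ → ℝ) (c : ℝ) (N₃ a b : ℕ) :
    TT α β q c N₃ (some (Sum.inr a)) (some (Sum.inl b)) =
      ∑ n ∈ Finset.Icc 2 N₃, if n = a * b then β a * α b * q n else 0 := by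
  unfold TT
  refine Finset.sum_congr rfl fun n _ => ?_
  have h : (n * nm (some (Sum.inr a)) * dn (some (Sum.inl b)) =
      dn (some (Sum.inr a)) * nm (some (Sum.inl b))) ↔ n = a * b := by
    show n * 1 * 1 = a * b ↔ _
    rw [mul_one, mul_one]
  by_cases hb : n = a * b
  · rw [if_pos (h.2 hb), if_pos hb]
    show β a * α b * q n * 1 = _
    ring
  · rw [if_neg (fun h' => hb (h.1 h')), if_neg hb, mul_zero]

lemma TT_inr_inr (α β q : ℕ → ℝ) (c : ℝ) (N₃ a b : ℕ) :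
    TT α β q c N₃ (some (Sum.inr a)) (some (Sum.inr b)) =
      ∑ n ∈ Finset.Icc 2 N₃, if a = b * n then β b * q n * β a else 0 := by
  unfold TT
  refine Finset.sum_congr rfl fun n _ => ?_
  have h : (n * nm (some (Sum.inr a)) * dn (some (Sum.inr b)) =
      dn (some (Sum.inr a)) * nm (some (Sum.inr b))) ↔ a = b * n := by
    show n * 1 * b = a * 1 ↔ _
    rw [mul_one, mul_one, mul_comm n b]
    exact eq_comm
  by_cases hb : a = b * n
  · rw [if_pos (h.2 hb), if_pos hb]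
    show β a * β b * q n * 1 = _
    ring
  · rw [if_neg (fun h' => hb (h.1 h')), if_neg hb, mul_zero]

lemma res_sum (α β q : ℕ → ℝ) (N₁ N₂ N₃ : ℕ) (c : ℝ) (h13 : N₁ ≤ N₃) (h23 : N₂ ≤ N₃) :
    ∑ x ∈ SS N₁ N₂, ∑ y ∈ SS N₁ N₂, TT α β q c N₃ x y =
    c * ((∑ n ∈ Finset.Icc 2 N₁, α n * q n) + (∑ n ∈ Finset.Icc 2 N₂, β n * q n)) +
    (∑ a ∈ Finset.Icc 2 N₁, ∑ b ∈ Finset.Icc 2 N₃, ∑ k ∈ Finset.Icc 2 N₁,
      if k = a * b then α a * q b * α k else 0) +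
    (∑ a ∈ Finset.Icc 2 N₂, ∑ b ∈ Finset.Icc 2 N₁, ∑ k ∈ Finset.Icc 2 N₃,
      if k = a * b then β a * α b * q k else 0) +
    (∑ a ∈ Finset.Icc 2 N₂, ∑ b ∈ Finset.Icc 2 N₃, ∑ k ∈ Finset.Icc 2 N₂,
      if k = a * b then β a * q b * β k else 0) := by
  rw [sum_SS]
  have e0 : ∑ y ∈ SS N₁ N₂, TT α β q c N₃ none y = c * ∑ n ∈ Finset.Icc 2 N₁, α n * q n := by
    rw [sum_SS, TT_none_none, zero_add]
    have h1 : ∑ b ∈ Finset.Icc 2 N₂, TT α β q c N₃ none (some (Sum.inr b)) = 0 :=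
      Finset.sum_eq_zero fun b hb => TT_none_inr α β q c (Finset.mem_Icc.1 hb).1
    rw [h1, add_zero, Finset.mul_sum]
    refine Finset.sum_congr rfl fun b hb => TT_none_inl α β q c ?_
    rw [Finset.mem_Icc] at hb ⊢
    exact ⟨hb.1, hb.2.trans h13⟩
  have e1 : ∀ a ∈ Finset.Icc 2 N₁, ∑ y ∈ SS N₁ N₂, TT α β q c N₃ (some (Sum.inl a)) y =
      ∑ b ∈ Finset.Icc 2 N₃, ∑ k ∈ Finset.Icc 2 N₁,
        if k = a * b then α a * q b * α k else 0 := by
    intro a ha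
    rw [Finset.mem_Icc] at ha
    rw [sum_SS, TT_inl_none α β q c ha.1, zero_add]
    have h1 : ∑ b ∈ Finset.Icc 2 N₂, TT α β q c N₃ (some (Sum.inl a)) (some (Sum.inr b)) = 0 :=
      Finset.sum_eq_zero fun b hb => TT_inl_inr α β q c ha.1 (Finset.mem_Icc.1 hb).1
    rw [h1, add_zero, Finset.sum_comm]
    exact Finset.sum_congr rfl fun b _ => TT_inl_inl α β q c N₃ a b
  have e2 : ∀ a ∈ Finset.Icc 2 N₂, ∑ y ∈ SS N₁ N₂, TT α β q c N₃ (some (Sum.inr a)) y =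
      c * (β a * q a) + ((∑ b ∈ Finset.Icc 2 N₁, ∑ k ∈ Finset.Icc 2 N₃,
        if k = a * b then β a * α b * q k else 0) +
      ∑ b ∈ Finset.Icc 2 N₂, ∑ n ∈ Finset.Icc 2 N₃,
        if a = b * n then β b * q n * β a else 0) := by
    intro a ha
    rw [Finset.mem_Icc] at ha
    rw [sum_SS, TT_inr_none α β q c (Finset.mem_Icc.2 ⟨ha.1, ha.2.trans h23⟩)]
    congr 1
    congr 1
    · exact Finset.sum_congr rfl fun b _ => TT_inr_inl α β q c N₃ a b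
    · exact Finset.sum_congr rfl fun b _ => TT_inr_inr α β q c N₃ a b
  rw [e0, Finset.sum_congr rfl e1, Finset.sum_congr rfl e2, Finset.sum_add_distrib,
    Finset.sum_add_distrib, ← Finset.mul_sum]
  have e3 : ∑ a ∈ Finset.Icc 2 N₂, ∑ b ∈ Finset.Icc 2 N₂, ∑ n ∈ Finset.Icc 2 N₃,
        (if a = b * n then β b * q n * β a else 0) =
      ∑ a ∈ Finset.Icc 2 N₂, ∑ b ∈ Finset.Icc 2 N₃, ∑ k ∈ Finset.Icc 2 N₂,
        (if k = a * b then β a * q b * β k else 0) := by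
    rw [Finset.sum_comm]
    refine Finset.sum_congr rfl fun b _ => ?_
    rw [Finset.sum_comm]
  rw [e3]
  ring

end TC.W63

/-- TRI2 -/
theorem TC.tri2 (h0 : TC.S_C0) : TC.S_TRI2 := by
  obtain ⟨C0, hC0, hC⟩ := h0
  refine ⟨3 * C0, by positivity, ?_⟩
  intro α β q N₁ N₂ N₃ c τ H A hH h1 h2 h13 h23 hα hβ hq
  rw [TC.W63.int_eq α β q N₁ N₂ N₃ c τ H hH]
  set ε : ℝ := Real.exp (-(H ^ 2) / (8 * ((N₁ : ℝ) * N₂) ^ 2)) with hε
  have hε0 : 0 < ε := Real.exp_pos _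
  set main : ℝ := c * ((∑ n ∈ Finset.Icc 2 N₁, α n * q n) +
      (∑ n ∈ Finset.Icc 2 N₂, β n * q n)) with hmain
  set S : ℝ := ∑ x ∈ TC.W63.SS N₁ N₂, ∑ y ∈ TC.W63.SS N₁ N₂, ∑ n ∈ Finset.Icc 2 N₃,
      TC.W63.dd α β c x * TC.W63.dd α β c y * q n *
        TC.W63.EE τ H (TC.W63.fr x - TC.W63.fr y + Real.log n) with hS
  set T : ℝ := ∑ x ∈ TC.W63.SS N₁ N₂, ∑ y ∈ TC.W63.SS N₁ N₂, TC.W63.TT α β q c N₃ x y with hT
  have hclose : |S - T| ≤ (TC.sz α β N₁ N₂ c) ^ 2 * (∑ n ∈ Finset.Icc 2 N₃, |q n|) * ε := by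
    have e1 : S - T = ∑ x ∈ TC.W63.SS N₁ N₂, ∑ y ∈ TC.W63.SS N₁ N₂, ∑ n ∈ Finset.Icc 2 N₃,
        TC.W63.dd α β c x * TC.W63.dd α β c y * q n *
        (TC.W63.EE τ H (TC.W63.fr x - TC.W63.fr y + Real.log n) -
          (if n * TC.W63.nm x * TC.W63.dn y = TC.W63.dn x * TC.W63.nm y then 1 else 0)) := by
      rw [hS, hT, ← Finset.sum_sub_distrib]
      refine Finset.sum_congr rfl fun x _ => ?_
      rw [← Finset.sum_sub_distrib]
      refine Finset.sum_congr rfl fun y _ => ?_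
      unfold TC.W63.TT
      rw [← Finset.sum_sub_distrib]
      refine Finset.sum_congr rfl fun n _ => ?_
      ring
    have e2 : (TC.sz α β N₁ N₂ c) ^ 2 * (∑ n ∈ Finset.Icc 2 N₃, |q n|) * ε =
        ∑ x ∈ TC.W63.SS N₁ N₂, ∑ y ∈ TC.W63.SS N₁ N₂, ∑ n ∈ Finset.Icc 2 N₃,
        |TC.W63.dd α β c x| * |TC.W63.dd α β c y| * |q n| * ε := by
      rw [TC.W63.sz_eq, sq, Finset.sum_mul_sum, Finset.sum_mul, Finset.sum_mul]
      refine Finset.sum_congr rfl fun x _ => ?_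
      rw [Finset.sum_mul, Finset.sum_mul]
      refine Finset.sum_congr rfl fun y _ => ?_
      rw [Finset.mul_sum, Finset.sum_mul]
    rw [e1, e2]
    refine (Finset.abs_sum_le_sum_abs _ _).trans (Finset.sum_le_sum fun x hx => ?_)
    refine (Finset.abs_sum_le_sum_abs _ _).trans (Finset.sum_le_sum fun y hy => ?_)
    refine (Finset.abs_sum_le_sum_abs _ _).trans (Finset.sum_le_sum fun n hn => ?_)
    rw [abs_mul, abs_mul, abs_mul]
    refine mul_le_mul_of_nonneg_left ?_ (by positivity)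
    exact TC.W63.EE_close h1 h2 hx hy ((Finset.mem_Icc.1 hn).1.trans' (by norm_num)) τ H
  have hA2 : 0 ≤ A ^ 2 := sq_nonneg A
  have hsub1 : Finset.Icc 2 N₁ ⊆ Finset.Icc 2 N₃ := Finset.Icc_subset_Icc_right h13
  have hsub2 : Finset.Icc 2 N₂ ⊆ Finset.Icc 2 N₃ := Finset.Icc_subset_Icc_right h23
  have hAl : ∀ n, 0 ≤ A * TC.lam n := fun n => (abs_nonneg _).trans (hα n)
  have hres : |T - main| ≤ 3 * C0 * A ^ 2 := by
    rw [hT, TC.W63.res_sum α β q N₁ N₂ N₃ c h13 h23, ← hmain]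
    have r1 := TC.W63.res_bd (hC N₃) hA2 (s₂ := Finset.Icc 2 N₁) hsub1
      (Finset.Subset.refl (Finset.Icc 2 N₃)) α α q (by
        intro a b
        rw [abs_mul, abs_mul]
        calc |α a| * |q b| * |α (a * b)|
            ≤ (A * TC.lam a) * TC.lam b * (A * TC.lam (a * b)) :=
              mul_le_mul (mul_le_mul (hα a) (hq b) (abs_nonneg _) (hAl a)) (hα _) (abs_nonneg _)
                (mul_nonneg (hAl a) (TC.lam_nonneg _))
          _ = A ^ 2 * (TC.lam a * TC.lam b * TC.lam (a * b)) := by ring)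
    have r2 := TC.W63.res_bd (hC N₃) hA2 (s₂ := Finset.Icc 2 N₃) hsub2 hsub1 β q α (by
        intro a b
        rw [abs_mul, abs_mul]
        calc |β a| * |α b| * |q (a * b)|
            ≤ (A * TC.lam a) * (A * TC.lam b) * (TC.lam (a * b)) :=
              mul_le_mul (mul_le_mul (hβ a) (hα b) (abs_nonneg _) (hAl a)) (hq _) (abs_nonneg _)
                (mul_nonneg (hAl a) (hAl b))
          _ = A ^ 2 * (TC.lam a * TC.lam b * TC.lam (a * b)) := by ring)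
    have r3 := TC.W63.res_bd (hC N₃) hA2 (s₂ := Finset.Icc 2 N₂) hsub2
      (Finset.Subset.refl (Finset.Icc 2 N₃)) β β q (by
        intro a b
        rw [abs_mul, abs_mul]
        calc |β a| * |q b| * |β (a * b)|
            ≤ (A * TC.lam a) * TC.lam b * (A * TC.lam (a * b)) :=
              mul_le_mul (mul_le_mul (hβ a) (hq b) (abs_nonneg _) (hAl a)) (hβ _) (abs_nonneg _)
                (mul_nonneg (hAl a) (TC.lam_nonneg _))
          _ = A ^ 2 * (TC.lam a * TC.lam b * TC.lam (a * b)) := by ring)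
    rw [abs_le] at r1 r2 r3 ⊢
    constructor
    · linarith [r1.1, r2.1, r3.1]
    · linarith [r1.2, r2.2, r3.2]
  have hK : 0 ≤ Real.sqrt (2 * Real.pi) * H := by positivity
  rw [← mul_sub, abs_mul, abs_of_nonneg hK]
  refine mul_le_mul_of_nonneg_left ?_ hK
  have : S - main = (S - T) + (T - main) := by ring
  rw [this]
  refine (abs_add_le _ _).trans ?_
  linarith
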